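import Mathlib
import Pool.Agent.H28.AcycData

set_option autoImplicit false

namespace Pool.Agent.Results.MP_b17c1b_co.ListGap

open SimpleGraph

/-- `c` is an acyclic edge colouring of `G`: adjacent edges get different colours, and for any two
colours `p`, `q` every cycle of `G` has an edge coloured neither `p` nor `q`. -/
def IsAcyclicColouring {V : Type} (G : SimpleGraph V) (c : Sym2 V → ℕ) : Prop :=
  (∀ a b d : V, G.Adj a b → G.Adj b d → a ≠ d → c s(a, b) ≠ c s(b, d)) ∧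
  ∀ (p q : ℕ) (v : V) (w : G.Walk v v), w.IsCycle → ∃ e ∈ w.edges, c e ≠ p ∧ c e ≠ q

/-- `G` has an acyclic edge colouring with the `k` colours `0, …, k-1`. -/
def AcColourable {V : Type} (G : SimpleGraph V) (k : ℕ) : Prop :=
  ∃ c : Sym2 V → ℕ, IsAcyclicColouring G c ∧ ∀ e ∈ G.edgeSet, c e < k

/-- Every assignment of lists of exactly `k` colours to the edges of `G` admits an acyclic edge
colouring from the lists. -/
def AcChoosable {V : Type} (G : SimpleGraph V) (k : ℕ) : Prop :=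
  ∀ L : Sym2 V → Finset ℕ, (∀ e ∈ G.edgeSet, (L e).card = k) →
    ∃ c : Sym2 V → ℕ, IsAcyclicColouring G c ∧ ∀ e ∈ G.edgeSet, c e ∈ L e

lemma cyc4 {V : Type} {G : SimpleGraph V} {c : Sym2 V → ℕ} (hc : IsAcyclicColouring G c)
    {a b d e : V} (h1 : G.Adj a b) (h2 : G.Adj b d) (h3 : G.Adj d e) (h4 : G.Adj e a)
    (ad : a ≠ d) (be : b ≠ e) :
    ¬ (c s(a, b) = c s(d, e) ∧ c s(b, d) = c s(e, a)) := by
  rintro ⟨x, y⟩
  have n1 := h1.ne; have n2 := h2.ne; have n3 := h3.ne; have n4 := h4.ne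
  have hcyc : (Walk.cons h1 (Walk.cons h2 (Walk.cons h3 (Walk.cons h4 Walk.nil)))).IsCycle := by
    rw [Walk.cons_isCycle_iff, Walk.isPath_def]
    simp only [Walk.support_cons, Walk.support_nil, Walk.edges_cons, Walk.edges_nil,
      List.nodup_cons, List.mem_cons, List.not_mem_nil, List.nodup_nil, Sym2.eq_iff]
    grind
  obtain ⟨f, hf, g1, g2⟩ := hc.2 (c s(a, b)) (c s(b, d)) a _ hcyc
  simp only [Walk.edges_cons, Walk.edges_nil, List.mem_cons, List.not_mem_nil] at hf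
  grind

lemma cyc6 {V : Type} {G : SimpleGraph V} {c : Sym2 V → ℕ} (hc : IsAcyclicColouring G c)
    {a b d e f g : V} (h1 : G.Adj a b) (h2 : G.Adj b d) (h3 : G.Adj d e) (h4 : G.Adj e f)
    (h5 : G.Adj f g) (h6 : G.Adj g a) (ad : a ≠ d) (be : b ≠ e) (df : d ≠ f) (eg : e ≠ g)
    (fa : f ≠ a) (ae : a ≠ e) (bf : b ≠ f) (dg : d ≠ g) (bg : b ≠ g) :
    ¬ (c s(a, b) = c s(d, e) ∧ c s(d, e) = c s(f, g) ∧ c s(b, d) = c s(e, f) ∧
      c s(e, f) = c s(g, a)) := by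
  rintro ⟨x, y, z, u⟩
  have n1 := h1.ne; have n2 := h2.ne; have n3 := h3.ne; have n4 := h4.ne
  have n5 := h5.ne; have n6 := h6.ne
  have hcyc : (Walk.cons h1 (Walk.cons h2 (Walk.cons h3 (Walk.cons h4 (Walk.cons h5
      (Walk.cons h6 Walk.nil)))))).IsCycle := by
    rw [Walk.cons_isCycle_iff, Walk.isPath_def]
    simp only [Walk.support_cons, Walk.support_nil, Walk.edges_cons, Walk.edges_nil,
      List.nodup_cons, List.mem_cons, List.not_mem_nil, List.nodup_nil, Sym2.eq_iff]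
    grind
  obtain ⟨k, hk, g1, g2⟩ := hc.2 (c s(a, b)) (c s(b, d)) a _ hcyc
  simp only [Walk.edges_cons, Walk.edges_nil, List.mem_cons, List.not_mem_nil] at hk
  grind

open Pool.Agent.H28.Acyc

def eidS : Sym2 (Fin 88) → ℕ := Sym2.lift ⟨fun a b => eid a.val b.val, eid_symm⟩

lemma eidS_mk (a b : Fin 88) : eidS s(a, b) = eid a.val b.val := rfl

lemma colourable : AcColourable G 3 := by
  refine ⟨fun e => col (eidS e), ⟨fun a b d h h' hn => base3 a b h d h' hn, ?_⟩, ?_⟩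
  · intro p q v w hw
    by_contra hcon
    push Not at hcon
    obtain ⟨r, hr, hp, hq⟩ : ∃ r, r < 3 ∧ r ≠ p ∧ r ≠ q := by
      by_cases h0 : 0 ≠ p ∧ 0 ≠ q
      · exact ⟨0, by norm_num, h0⟩
      by_cases h1 : 1 ≠ p ∧ 1 ≠ q
      · exact ⟨1, by norm_num, h1⟩
      exact ⟨2, by norm_num, by omega⟩
    obtain ⟨x, hx, hmin⟩ := Finset.exists_min_image w.support.toFinset (fun y => rk r y.val)
      ⟨v, by simp⟩
    rw [List.mem_toFinset] at hx
    obtain ⟨a, b, hab, hs⟩ := Set.ncard_eq_two.1 (hw.ncard_neighborSet_toSubgraph_eq_two hx)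
    have key : ∀ y, y ∈ w.toSubgraph.neighborSet x → up r x y := by
      intro y hy
      have hadj : w.toSubgraph.Adj x y := hy
      have he : s(x, y) ∈ w.edges := Walk.adj_toSubgraph_iff_mem_edges.1 hadj
      refine ⟨w.toSubgraph.adj_sub hadj, ?_, hmin y ?_⟩
      · intro h
        have := hcon _ he
        rw [eidS_mk, h] at this
        exact hq (this hp)
      · exact List.mem_toFinset.2 (w.snd_mem_support_of_mem_edges he)
    exact hab (rank_ok r hr x a (key a (by rw [hs]; simp)) b (key b (by rw [hs]; simp)))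
  · intro e he
    induction e using Sym2.ind with
    | h a b => exact col_lt a b he

lemma not_colourable (cc : Sym2 (Fin 88) → ℕ) (hc : IsAcyclicColouring G cc)
    (hL : ∀ e ∈ G.edgeSet, cc e ∈ (Finset.range 4).erase (om (eidS e))) : False := by
  set c : ℕ → ℕ := fun j => cc s(fu j, fv j) with hcdef
  have hcol : ∀ a b : Fin 88, G.Adj a b → cc s(a, b) = c (eid a.val b.val) := by
    intro a b h
    rcases eid_ends a b h with ⟨e1, e2⟩ | ⟨e1, e2⟩
    · simp only [hcdef, e1, e2]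
    · simp only [hcdef, e1, e2]; rw [Sym2.eq_swap]
  have hc' : ∀ j < 128, c j < 4 ∧ c j ≠ om j := by
    intro j hj
    have := hL s(fu j, fv j) (ends_adj j hj).1
    rw [eidS_mk, (ends_adj j hj).2, Finset.mem_erase, Finset.mem_range] at this
    exact ⟨this.2, this.1⟩
  have hw : ∀ a b d i j, wP a b d i j = true → ∃ (ha : a < 88) (hb : b < 88) (hd : d < 88),
      G.Adj ⟨a, ha⟩ ⟨b, hb⟩ ∧ G.Adj ⟨b, hb⟩ ⟨d, hd⟩ ∧ (⟨a, ha⟩ : Fin 88) ≠ ⟨d, hd⟩ ∧
      cc s(⟨a, ha⟩, ⟨b, hb⟩) = c i ∧ cc s(⟨b, hb⟩, ⟨d, hd⟩) = c j := by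
    intro a b d i j h
    simp only [wP, Bool.and_eq_true, decide_eq_true_eq, beq_iff_eq, bne_iff_ne] at h
    obtain ⟨⟨⟨⟨⟨⟨⟨ha, hb⟩, hd⟩, p⟩, q⟩, hn⟩, e1⟩, e2⟩ := h
    refine ⟨ha, hb, hd, p, q, fun h => hn (Fin.mk.inj_iff.1 h), ?_, ?_⟩
    · rw [hcol ⟨a, ha⟩ ⟨b, hb⟩ p, ← e1]
    · rw [hcol ⟨b, hb⟩ ⟨d, hd⟩ q, ← e2]
  have hwP : ∀ a b d i j, wP a b d i j = true → c i ≠ c j := by
    intro a b d i j h
    obtain ⟨ha, hb, hd, p, q, hn, e1, e2⟩ := hw a b d i j h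
    rw [← e1, ← e2]; exact hc.1 _ _ _ p q hn
  have hw4 : ∀ a b d e i j k l, w4 a b d e i j k l = true → ¬ (c i = c k ∧ c j = c l) := by
    intro a b d e i j k l h
    simp only [w4, Bool.and_eq_true] at h
    obtain ⟨⟨x, y⟩, z⟩ := h
    obtain ⟨ha, hb, hd, p, q, hn, e1, e2⟩ := hw _ _ _ _ _ x
    obtain ⟨_, _, he, _, r, hn', _, e3⟩ := hw _ _ _ _ _ y
    obtain ⟨_, _, _, _, s, _, _, e4⟩ := hw _ _ _ _ _ z
    rw [← e1, ← e2, ← e3, ← e4]
    exact cyc4 hc p q r s hn hn'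
  have hw6 : ∀ a b d e f g i j k l p q, w6 a b d e f g i j k l p q = true →
      ¬ (c i = c k ∧ c k = c p ∧ c j = c l ∧ c l = c q) := by
    intro a b d e f g i j k l p q h
    simp only [w6, Bool.and_eq_true, bne_iff_ne] at h
    obtain ⟨⟨⟨⟨⟨⟨⟨⟨x1, x2⟩, x3⟩, x4⟩, x5⟩, m1⟩, m2⟩, m3⟩, m4⟩ := h
    obtain ⟨ha, hb, hd, a1, a2, n1, e1, e2⟩ := hw _ _ _ _ _ x1
    obtain ⟨_, _, he, _, a3, n2, _, e3⟩ := hw _ _ _ _ _ x2
    obtain ⟨_, _, hf, _, a4, n3, _, e4⟩ := hw _ _ _ _ _ x3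
    obtain ⟨_, _, hg, _, a5, n4, _, e5⟩ := hw _ _ _ _ _ x4
    obtain ⟨_, _, _, _, a6, n5, _, e6⟩ := hw _ _ _ _ _ x5
    rw [← e1, ← e2, ← e3, ← e4, ← e5, ← e6]
    exact cyc6 hc a1 a2 a3 a4 a5 a6 n1 n2 n3 n4 n5 (fun h => m1 (Fin.mk.inj_iff.1 h))
      (fun h => m2 (Fin.mk.inj_iff.1 h)) (fun h => m3 (Fin.mk.inj_iff.1 h))
      (fun h => m4 (Fin.mk.inj_iff.1 h))
  refine go_sound c hc' ?_ ?_ D 0 chkD goD
  · intro i j h
    simp only [vP, Bool.or_eq_true] at h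
    rcases h with h | h <;> exact hwP _ _ _ _ _ h
  · intro i p p' x y z h
    simp only [vH, v4, v4', v6, v6', Bool.or_eq_true] at h
    rcases h with (h | h) | (h | h)
    · exact fun g => hw4 _ _ _ _ _ _ _ _ h ⟨g.1, g.2.2.1⟩
    · exact fun g => hw4 _ _ _ _ _ _ _ _ h ⟨g.1, g.2.2.1⟩
    · exact hw6 _ _ _ _ _ _ _ _ _ _ _ _ h
    · exact hw6 _ _ _ _ _ _ _ _ _ _ _ _ h

/-- A finite simple graph whose acyclic list chromatic index exceeds its acyclic chromatic index: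
it is acyclically edge-colourable with 3 colours, but not acyclically `j`-edge-choosable for any
`j ≤ 3`. -/
theorem result : ∃ (n : ℕ) (H : SimpleGraph (Fin n)),
    AcColourable H 3 ∧ ∀ j ≤ 3, ¬ AcChoosable H j := by
  refine ⟨88, G, colourable, fun j hj h => ?_⟩
  have hcard : ∀ e : Sym2 (Fin 88), j ≤ ((Finset.range 4).erase (om (eidS e))).card := by
    intro e
    have h4 : om (eidS e) < 4 := Nat.mod_lt _ (by norm_num)
    rw [Finset.card_erase_of_mem (Finset.mem_range.2 h4)]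
    simpa using hj
  choose L hL hLc using fun e => Finset.exists_subset_card_eq (hcard e)
  obtain ⟨c, hc, hm⟩ := h L (fun e _ => hLc e)
  exact not_colourable c hc (fun e he => hL e (hm e he))

end Pool.Agent.Results.MP_b17c1b_co.ListGap
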